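import Mathlib

/-!
# The weight trick: probability weights on a set of primes killing all characters of small conductor
-/

namespace Pool.Agent.LW

open Finset ComplexConjugate

/-- diagonally dominant linear systems, `ℓ¹` form -/
theorem solve {ι : Type*} [Fintype ι] [DecidableEq ι] (M : ι → ι → ℂ) (hd : ∀ i, M i i = 1)
    (hr : ∀ i, ∑ j ∈ univ.erase i, ‖M i j‖ ≤ 1 / 4) (v : ι → ℂ) :
    ∃ a : ι → ℂ, (∀ j, ∑ i, a i * M i j = v j) ∧ ∑ i, ‖a i‖ ≤ 4 / 3 * ∑ i, ‖v i‖ := by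
  have key : ∀ a : ι → ℂ, 3 / 4 * ∑ i, ‖a i‖ ≤ ∑ j, ‖∑ i, a i * M i j‖ := by
    intro a
    have h1 : ∀ j, ‖a j‖ - ∑ i ∈ univ.erase j, ‖a i‖ * ‖M i j‖ ≤ ‖∑ i, a i * M i j‖ := by
      intro j
      rw [← Finset.add_sum_erase univ _ (Finset.mem_univ j), hd j, mul_one]
      have h2 : ‖∑ i ∈ univ.erase j, a i * M i j‖ ≤ ∑ i ∈ univ.erase j, ‖a i‖ * ‖M i j‖ := by
        refine (norm_sum_le _ _).trans (le_of_eq ?_)
        exact Finset.sum_congr rfl fun i _ => norm_mul _ _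
      have h3 := norm_sub_norm_le (a j) (-∑ i ∈ univ.erase j, a i * M i j)
      rw [norm_neg, sub_neg_eq_add] at h3
      linarith
    have h4 : ∑ j, (‖a j‖ - ∑ i ∈ univ.erase j, ‖a i‖ * ‖M i j‖) ≤ ∑ j, ‖∑ i, a i * M i j‖ :=
      Finset.sum_le_sum fun j _ => h1 j
    have h5 : ∑ j, ∑ i ∈ univ.erase j, ‖a i‖ * ‖M i j‖ = ∑ i, ‖a i‖ * ∑ j ∈ univ.erase i, ‖M i j‖ := by
      simp_rw [Finset.mul_sum]
      rw [Finset.sum_comm' (t' := univ) (s' := fun i => univ.erase i)]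
      intro x y
      simp [eq_comm]
    rw [Finset.sum_sub_distrib, h5] at h4
    have h6 : ∑ i, ‖a i‖ * ∑ j ∈ univ.erase i, ‖M i j‖ ≤ ∑ i, ‖a i‖ * (1 / 4) :=
      Finset.sum_le_sum fun i _ => mul_le_mul_of_nonneg_left (hr i) (norm_nonneg _)
    rw [← Finset.sum_mul] at h6
    linarith
  let Φ : (ι → ℂ) →ₗ[ℂ] (ι → ℂ) :=
    { toFun := fun a j => ∑ i, a i * M i j
      map_add' := fun a b => by
        funext j
        simp [add_mul, Finset.sum_add_distrib]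
      map_smul' := fun r a => by
        funext j
        simp [Finset.mul_sum, mul_assoc] }
  have hinj : Function.Injective Φ := by
    rw [injective_iff_map_eq_zero]
    intro a ha
    have h1 := key a
    have h2 : ∑ j, ‖∑ i, a i * M i j‖ = 0 := by
      refine Finset.sum_eq_zero fun j _ => ?_
      have : Φ a j = 0 := by rw [ha]; rfl
      have h3 : ∑ i, a i * M i j = 0 := this
      rw [h3, norm_zero]
    have h3 : ∑ i, ‖a i‖ ≤ 0 := by linarith
    have h4 : ∑ i, ‖a i‖ = 0 := le_antisymm h3 (Finset.sum_nonneg fun i _ => norm_nonneg _)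
    funext i
    have h5 := (Finset.sum_eq_zero_iff_of_nonneg (fun i _ => norm_nonneg (a i))).1 h4 i
      (Finset.mem_univ i)
    exact norm_eq_zero.1 h5
  have hsurj : Function.Surjective Φ := LinearMap.injective_iff_surjective.1 hinj
  obtain ⟨a, ha⟩ := hsurj v
  refine ⟨a, fun j => congrFun ha j, ?_⟩
  have h1 := key a
  have h2 : ∑ j, ‖∑ i, a i * M i j‖ = ∑ j, ‖v j‖ :=
    Finset.sum_congr rfl fun j _ => by rw [show ∑ i, a i * M i j = v j from congrFun ha j]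
  rw [h2] at h1
  linarith

/-- abstract form of the weight trick -/
theorem weights {ι : Type*} [Fintype ι] [DecidableEq ι] (P : Finset ℕ) (hP : P.Nonempty)
    (c : ι → ℕ → ℂ) (h1 : ∀ i, ∀ n ∈ P, ‖c i n‖ = 1) (σ : ι → ι)
    (hσ : ∀ i, ∀ n ∈ P, c (σ i) n = conj (c i n))
    (hG : ∀ i, ∑ j ∈ univ.erase i, ‖∑ n ∈ P, c i n * conj (c j n)‖ ≤ (#P : ℝ) / 4)
    (h0 : ∑ i, ‖∑ n ∈ P, c i n‖ ≤ (#P : ℝ) / 4) :
    ∃ b : ℕ → ℝ, (∀ n ∈ P, 1 / (2 * #P) ≤ b n ∧ b n ≤ 2 / #P) ∧ ∑ n ∈ P, b n = 1 ∧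
      ∀ i, ∑ n ∈ P, (b n : ℂ) * c i n = 0 := by
  have hp : (0 : ℝ) < #P := by exact_mod_cast hP.card_pos
  have hpc : (#P : ℂ) ≠ 0 := by exact_mod_cast hp.ne'
  set M : ι → ι → ℂ := fun i j => (#P : ℂ)⁻¹ * ∑ n ∈ P, c i n * conj (c j n) with hM
  have hnorm : ‖(#P : ℂ)⁻¹‖ = (#P : ℝ)⁻¹ := by
    rw [norm_inv, Complex.norm_natCast]
  have hd : ∀ i, M i i = 1 := by
    intro i
    rw [hM]
    have : ∑ n ∈ P, c i n * conj (c i n) = #P := by
      rw [Finset.sum_congr rfl (g := fun _ => (1 : ℂ))]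
      · simp
      · intro n hn
        rw [Complex.mul_conj, Complex.normSq_eq_norm_sq, h1 i n hn]
        simp
    simp only [this]
    exact inv_mul_cancel₀ hpc
  have hr : ∀ i, ∑ j ∈ univ.erase i, ‖M i j‖ ≤ 1 / 4 := by
    intro i
    have : ∑ j ∈ univ.erase i, ‖M i j‖ =
        (#P : ℝ)⁻¹ * ∑ j ∈ univ.erase i, ‖∑ n ∈ P, c i n * conj (c j n)‖ := by
      rw [Finset.mul_sum]
      refine Finset.sum_congr rfl fun j _ => ?_
      rw [hM, norm_mul, hnorm]
    rw [this]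
    calc (#P : ℝ)⁻¹ * ∑ j ∈ univ.erase i, ‖∑ n ∈ P, c i n * conj (c j n)‖
        ≤ (#P : ℝ)⁻¹ * ((#P : ℝ) / 4) := mul_le_mul_of_nonneg_left (hG i) (by positivity)
      _ = 1 / 4 := by field_simp
  obtain ⟨a, ha, hab⟩ := solve M hd hr (fun j => (#P : ℂ)⁻¹ * ∑ n ∈ P, conj (c j n))
  have hab' : ∑ i, ‖a i‖ ≤ 1 / 3 := by
    refine hab.trans ?_
    have : ∑ i, ‖(#P : ℂ)⁻¹ * ∑ n ∈ P, conj (c i n)‖ = (#P : ℝ)⁻¹ * ∑ i, ‖∑ n ∈ P, c i n‖ := by
      rw [Finset.mul_sum]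
      refine Finset.sum_congr rfl fun j _ => ?_
      rw [norm_mul, hnorm, ← map_sum, RCLike.norm_conj]
    rw [this]
    calc 4 / 3 * ((#P : ℝ)⁻¹ * ∑ i, ‖∑ n ∈ P, c i n‖) ≤ 4 / 3 * ((#P : ℝ)⁻¹ * ((#P : ℝ) / 4)) := by
          gcongr
      _ = 1 / 3 := by field_simp
  -- the complex weights
  set h : ℕ → ℂ := fun n => ∑ i, a i * c i n with hh
  have hh1 : ∀ n ∈ P, ‖h n‖ ≤ 1 / 3 := by
    intro n hn
    calc ‖h n‖ ≤ ∑ i, ‖a i * c i n‖ := norm_sum_le _ _
      _ = ∑ i, ‖a i‖ := Finset.sum_congr rfl fun i _ => by rw [norm_mul, h1 i n hn, mul_one]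
      _ ≤ 1 / 3 := hab'
  have horth : ∀ j, ∑ n ∈ P, (1 - h n) * conj (c j n) = 0 := by
    intro j
    have e1 := ha j
    simp only [hM] at e1
    have e2 : ∑ n ∈ P, h n * conj (c j n) = ∑ n ∈ P, conj (c j n) := by
      have e3 : ∑ n ∈ P, h n * conj (c j n) = ∑ i, a i * ∑ n ∈ P, c i n * conj (c j n) := by
        simp only [hh, Finset.sum_mul, Finset.mul_sum]
        rw [Finset.sum_comm]
        refine Finset.sum_congr rfl fun i _ => Finset.sum_congr rfl fun n _ => by ring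
      rw [e3]
      have e4 : ∑ i, a i * ((#P : ℂ)⁻¹ * ∑ n ∈ P, c i n * conj (c j n)) =
          (#P : ℂ)⁻¹ * ∑ i, a i * ∑ n ∈ P, c i n * conj (c j n) := by
        rw [Finset.mul_sum]
        exact Finset.sum_congr rfl fun i _ => by ring
      rw [e4] at e1
      exact mul_left_cancel₀ (inv_ne_zero hpc) e1
    simp only [sub_mul, one_mul, Finset.sum_sub_distrib, e2, sub_self]
  -- real parts
  set w : ℕ → ℝ := fun n => 1 - (h n).re with hw
  have hw1 : ∀ n ∈ P, 2 / 3 ≤ w n ∧ w n ≤ 4 / 3 := by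
    intro n hn
    have e1 := (Complex.abs_re_le_norm (h n)).trans (hh1 n hn)
    rw [abs_le] at e1
    simp only [hw]
    constructor <;> linarith [e1.1, e1.2]
  have hwo : ∀ i, ∑ n ∈ P, (w n : ℂ) * c i n = 0 := by
    intro i
    have e1 := horth i
    have e2 := horth (σ i)
    have e3 : ∑ n ∈ P, (1 - h n) * c i n = 0 := by
      rw [← e2]
      refine Finset.sum_congr rfl fun n hn => ?_
      rw [hσ i n hn, Complex.conj_conj]
    have e4 : ∑ n ∈ P, (1 - conj (h n)) * c i n = 0 := by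
      have := congrArg conj e1
      rw [map_sum, map_zero] at this
      rw [← this]
      refine Finset.sum_congr rfl fun n _ => ?_
      rw [map_mul, map_sub, map_one, Complex.conj_conj]
    have e5 : ∀ n, (w n : ℂ) = ((1 - h n) + (1 - conj (h n))) / 2 := by
      intro n
      simp only [hw]
      apply Complex.ext <;> simp <;> ring
    have e6 : ∑ n ∈ P, (w n : ℂ) * c i n =
        (∑ n ∈ P, (1 - h n) * c i n + ∑ n ∈ P, (1 - conj (h n)) * c i n) / 2 := by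
      rw [← Finset.sum_add_distrib, Finset.sum_div]
      refine Finset.sum_congr rfl fun n _ => ?_
      rw [e5]; ring
    rw [e6, e3, e4]; simp
  -- the total mass
  set S : ℝ := ∑ n ∈ P, w n with hS
  have hSb : |S - #P| ≤ (#P : ℝ) / 12 := by
    have e1 : S - #P = -(∑ n ∈ P, h n).re := by
      rw [hS, Complex.re_sum]
      simp only [hw, Finset.sum_sub_distrib, Finset.sum_const, nsmul_eq_mul, mul_one]
      ring
    have e2 : ‖∑ n ∈ P, h n‖ ≤ (#P : ℝ) / 12 := by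
      have e3 : ∑ n ∈ P, h n = ∑ i, a i * ∑ n ∈ P, c i n := by
        simp only [hh, Finset.mul_sum]
        rw [Finset.sum_comm]
      rw [e3]
      calc ‖∑ i, a i * ∑ n ∈ P, c i n‖ ≤ ∑ i, ‖a i * ∑ n ∈ P, c i n‖ := norm_sum_le _ _
        _ ≤ ∑ i, ‖a i‖ * ((#P : ℝ) / 4) := by
          refine Finset.sum_le_sum fun i _ => ?_
          rw [norm_mul]
          refine mul_le_mul_of_nonneg_left ?_ (norm_nonneg _)
          exact (Finset.single_le_sum (f := fun i => ‖∑ n ∈ P, c i n‖)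
            (fun i _ => norm_nonneg _) (Finset.mem_univ i)).trans h0
        _ = (∑ i, ‖a i‖) * ((#P : ℝ) / 4) := by rw [Finset.sum_mul]
        _ ≤ 1 / 3 * ((#P : ℝ) / 4) := by gcongr
        _ = (#P : ℝ) / 12 := by ring
    rw [e1, abs_neg]
    exact (Complex.abs_re_le_norm _).trans e2
  rw [abs_le] at hSb
  have hS0 : 0 < S := by linarith [hSb.1]
  refine ⟨fun n => w n / S, ?_, ?_, ?_⟩
  · intro n hn
    have e1 := hw1 n hn
    constructor
    · rw [div_le_div_iff₀ (by positivity) hS0]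
      nlinarith [hSb.2, e1.1]
    · rw [div_le_div_iff₀ hS0 hp]
      nlinarith [hSb.1, e1.2]
  · rw [← Finset.sum_div]
    exact div_self hS0.ne'
  · intro i
    have e1 := hwo i
    calc ∑ n ∈ P, ((w n / S : ℝ) : ℂ) * c i n = (∑ n ∈ P, (w n : ℂ) * c i n) / (S : ℂ) := by
          rw [Finset.sum_div]
          refine Finset.sum_congr rfl fun n _ => ?_
          push_cast; ring
      _ = 0 := by rw [e1]; simp

end Pool.Agent.LW
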